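import Pool.Agent.Q211.SP.Main

/-!
# Support-preserving convolution endomorphisms of finitely supported probability measures on `ℤ^d`

Every support-preserving endomorphism of the convolution semigroup `P(ℤ^d)` is a Boltzmann
reweighting.
-/

set_option autoImplicit false

namespace Pool.Agent.Results.MP_847c7e_pr.BoltzmannRigidity

open AddMonoidAlgebra Pool.Agent.Q211.SP

/-- Finitely supported probability measures on `ℤ^d`, written as functions. -/
@[ext] structure FProb (d : ℕ) where
  /-- the mass function -/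
  toFun : (Fin d → ℤ) → ℝ
  nonneg : ∀ x, 0 ≤ toFun x
  finite : toFun.support.Finite
  mass : ∑ᶠ x, toFun x = 1

variable {d : ℕ}

instance : CoeFun (FProb d) (fun _ => (Fin d → ℤ) → ℝ) := ⟨FProb.toFun⟩

/-- The element of the group algebra attached to a probability. -/
noncomputable def toA (μ : FProb d) : AddMonoidAlgebra ℝ (Fin d → ℤ) :=
  .ofCoeff (Finsupp.ofSupportFinite μ.toFun μ.finite)

theorem coeff_toA (μ : FProb d) (x : Fin d → ℤ) : (toA μ).coeff x = μ x := rfl

/-- The augmentation. -/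
noncomputable def aug (d : ℕ) : AddMonoidAlgebra ℝ (Fin d → ℤ) →+* ℝ :=
  AddMonoidAlgebra.liftNCRingHom (RingHom.id ℝ) (1 : Multiplicative (Fin d → ℤ) →* ℝ)
    (fun _ _ => mul_comm _ _)

theorem aug_eq (A : AddMonoidAlgebra ℝ (Fin d → ℤ)) :
    aug d A = A.coeff.sum (fun _ a => a) := by
  induction A using AddMonoidAlgebra.induction_linear with
  | zero => rw [map_zero]; simp
  | add f g hf hg =>
    rw [map_add, hf, hg, coeff_add, Finsupp.sum_add_index']
    · intro a; rfl
    · intro a b c; rfl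
  | single a b =>
    rw [coeff_single, Finsupp.sum_single_index rfl]
    show AddMonoidAlgebra.liftNC _ _ (AddMonoidAlgebra.single a b) = b
    rw [liftNC_single]
    simp

theorem aug_finsum (A : AddMonoidAlgebra ℝ (Fin d → ℤ)) :
    aug d A = ∑ᶠ x, A.coeff x := by
  rw [aug_eq, Finsupp.sum, finsum_eq_sum_of_support_subset]
  intro x hx
  rw [Finset.mem_coe, Finsupp.mem_support_iff]
  exact hx

theorem conv_eq (μ ν : FProb d) (x : Fin d → ℤ) :
    ∑ᶠ y, μ y * ν (x - y) = (toA μ * toA ν).coeff x := by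
  rw [coeff_mul_apply_left, Finsupp.sum, finsum_eq_sum_of_support_subset (s :=
    (toA μ).coeff.support)]
  · refine Finset.sum_congr rfl fun y _ => ?_
    rw [coeff_toA, coeff_toA, sub_eq_neg_add]
  · intro y hy
    rw [Finset.mem_coe, Finsupp.mem_support_iff, coeff_toA]
    intro h0
    apply hy
    show μ y * ν (x - y) = 0
    rw [h0, zero_mul]

/-- Convolution: `(μ * ν)(x) = ∑_y μ(y) ν(x - y)`. -/
noncomputable def conv (μ ν : FProb d) : FProb d where
  toFun x := ∑ᶠ y, μ y * ν (x - y)
  nonneg x := finsum_nonneg fun y => mul_nonneg (μ.nonneg y) (ν.nonneg _)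
  finite := by
    refine ((toA μ * toA ν).coeff.support.finite_toSet).subset ?_
    intro x hx
    rw [Finset.mem_coe, Finsupp.mem_support_iff, ← conv_eq]
    exact hx
  mass := by
    simp only [conv_eq]
    rw [← aug_finsum, map_mul, aug_finsum, aug_finsum]
    simp only [coeff_toA]
    rw [μ.mass, ν.mass, one_mul]

theorem toA_conv (μ ν : FProb d) : toA (conv μ ν) = toA μ * toA ν := by
  apply coeff_injective
  ext x
  rw [← conv_eq]
  rfl

theorem toA_injective : Function.Injective (toA (d := d)) := by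
  intro μ ν h
  apply FProb.ext
  funext x
  rw [← coeff_toA μ x, h, coeff_toA]

theorem aug_toA (μ : FProb d) : aug d (toA μ) = 1 := by
  rw [aug_finsum]
  exact μ.mass

theorem toA_pos (μ : FProb d) : Pos (toA μ) := by
  refine ⟨fun x => μ.nonneg x, ?_⟩
  by_contra hcon
  push Not at hcon
  have h0 : ∀ x, μ x = 0 := fun x => le_antisymm (hcon x) (μ.nonneg x)
  have := μ.mass
  simp only [h0, finsum_zero] at this
  exact zero_ne_one this

theorem aug_pos {A : AddMonoidAlgebra ℝ (Fin d → ℤ)} (hA : Pos A) : 0 < aug d A := by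
  obtain ⟨x, hx⟩ := hA.2
  rw [aug_eq, Finsupp.sum]
  exact Finset.sum_pos' (fun y _ => hA.1 y) ⟨x, Finsupp.mem_support_iff.2 hx.ne', hx⟩

/-- The probability obtained by normalisation. -/
noncomputable def toP (A : AddMonoidAlgebra ℝ (Fin d → ℤ)) (hA : Pos A) : FProb d where
  toFun := ((aug d A)⁻¹ • A).coeff
  nonneg x := by
    rw [coeff_smul_apply, smul_eq_mul]
    exact mul_nonneg (inv_nonneg.2 (aug_pos hA).le) (hA.1 x)
  finite := ((aug d A)⁻¹ • A).coeff.hasFiniteSupport
  mass := by
    rw [← aug_finsum, aug_finsum]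
    simp only [coeff_smul_apply, smul_eq_mul]
    rw [← mul_finsum, ← aug_finsum, inv_mul_cancel₀ (aug_pos hA).ne']

theorem toA_toP (A : AddMonoidAlgebra ℝ (Fin d → ℤ)) (hA : Pos A) :
    toA (toP A hA) = (aug d A)⁻¹ • A := by
  apply coeff_injective
  ext x
  rfl

open Classical in
/-- The homogeneous extension of `Φ`. -/
noncomputable def ext (Φ : FProb d → FProb d) (A : AddMonoidAlgebra ℝ (Fin d → ℤ)) :
    AddMonoidAlgebra ℝ (Fin d → ℤ) :=
  if h : Pos A then toA (Φ (toP A h)) else 0

theorem ext_of_pos (Φ : FProb d → FProb d) (A : AddMonoidAlgebra ℝ (Fin d → ℤ)) (h : Pos A) :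
    ext Φ A = toA (Φ (toP A h)) := by
  rw [ext, dif_pos h]

theorem aug_smul (r : ℝ) (A : AddMonoidAlgebra ℝ (Fin d → ℤ)) : aug d (r • A) = r * aug d A := by
  rw [aug_finsum, aug_finsum]
  simp only [coeff_smul_apply, smul_eq_mul]
  rw [mul_finsum]

theorem isPsi (Φ : FProb d → FProb d) (hconv : ∀ μ ν, Φ (conv μ ν) = conv (Φ μ) (Φ ν))
    (hsupp : ∀ μ, (Φ μ).toFun.support = μ.toFun.support) : IsPsi (ext Φ) := by
  refine ⟨?_, ?_, ?_, ?_, ?_⟩
  · intro A B hA hB
    rw [ext_of_pos Φ A hA, ext_of_pos Φ B hB, ext_of_pos Φ _ (hA.mul hB), ← toA_conv, ← hconv]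
    congr 2
    apply toA_injective
    rw [toA_conv, toA_toP, toA_toP, toA_toP, map_mul, mul_inv, smul_mul_smul_comm]
  · intro r A hr hA
    rw [ext_of_pos Φ _ (hA.smul hr), ext_of_pos Φ A hA]
    congr 2
    apply toA_injective
    rw [toA_toP, toA_toP, aug_smul, smul_smul]
    congr 1
    have := (aug_pos hA).ne'
    field_simp
  · intro A hA x
    rw [ext_of_pos Φ A hA, coeff_toA]
    exact (Φ (toP A hA)).nonneg x
  · intro A hA x
    rw [ext_of_pos Φ A hA, coeff_toA]
    have h1 : x ∈ (Φ (toP A hA)).toFun.support ↔ x ∈ (toP A hA).toFun.support := by rw [hsupp]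
    rw [Function.mem_support, Function.mem_support] at h1
    have h2 : (toP A hA).toFun x = (aug d A)⁻¹ * A.coeff x := rfl
    have h3 : (aug d A)⁻¹ ≠ 0 := inv_ne_zero (aug_pos hA).ne'
    rw [h2] at h1
    have h4 : (aug d A)⁻¹ * A.coeff x = 0 ↔ A.coeff x = 0 := by
      rw [mul_eq_zero]
      tauto
    tauto
  · intro A hA
    rw [ext_of_pos Φ A hA, ← aug_eq, aug_toA]

theorem ext_toA (Φ : FProb d → FProb d) (μ : FProb d) : ext Φ (toA μ) = toA (Φ μ) := by
  rw [ext_of_pos Φ _ (toA_pos μ)]
  congr 2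
  apply toA_injective
  rw [toA_toP, aug_toA, inv_one, one_smul]

/-- **Rigidity.**  Every map `Φ` from the finitely supported probability measures on `ℤ^d` to
themselves which is multiplicative for convolution and preserves supports is a Boltzmann
reweighting. -/
theorem result (d : ℕ) (Φ : FProb d → FProb d) (hconv : ∀ μ ν, Φ (conv μ ν) = conv (Φ μ) (Φ ν))
    (hsupp : ∀ μ, (Φ μ).toFun.support = μ.toFun.support) :
    ∃ β : Fin d → ℝ, ∀ (μ : FProb d) (x : Fin d → ℤ),
      Φ μ x = μ x * Real.exp (-∑ i, β i * x i) /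
        ∑ᶠ y : Fin d → ℤ, μ y * Real.exp (-∑ i, β i * y i) := by
  rcases Nat.eq_zero_or_pos d with hd | hd
  · subst hd
    refine ⟨0, fun μ x => ?_⟩
    have h1 : ∀ (ν : FProb 0) (x : Fin 0 → ℤ), ν x = 1 := by
      intro ν x
      have := ν.mass
      rw [finsum_unique] at this
      rw [← this]
      congr 1
      exact Subsingleton.elim _ _
    rw [finsum_unique]
    simp [h1]
  · have : Nonempty (Fin d) := ⟨⟨0, hd⟩⟩
    have h := isPsi Φ hconv hsupp
    set L : (Fin d → ℤ) →+ ℝ := AddMonoidHom.mk' (fun v => Real.log (lam (ext Φ) v)) (by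
      intro v w
      show Real.log _ = Real.log _ + Real.log _
      rw [lam_add h, Real.log_mul (lam_pos h v).ne' (lam_pos h w).ne']) with hL
    have hLv : ∀ v, Real.exp (L v) = lam (ext Φ) v := by
      intro v
      rw [hL, AddMonoidHom.mk'_apply, Real.exp_log (lam_pos h v)]
    refine ⟨fun i => -L (Pi.single i 1), fun μ x => ?_⟩
    have hexp : ∀ y : Fin d → ℤ,
        Real.exp (-∑ i, -L (Pi.single i 1) * y i) = lam (ext Φ) y := by
      intro y
      rw [← hLv y]
      congr 1
      have h1 : y = ∑ i, y i • (Pi.single i (1 : ℤ) : Fin d → ℤ) := by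
        funext j
        rw [Finset.sum_apply]
        simp [Pi.single_apply]
      conv_rhs => rw [h1, map_sum]
      rw [← Finset.sum_neg_distrib]
      refine Finset.sum_congr rfl fun i _ => ?_
      rw [map_zsmul, zsmul_eq_mul]
      ring
    simp only [hexp]
    have k := form h (toA μ) (toA_pos μ) x
    rw [ext_toA, coeff_toA, coeff_toA] at k
    rw [k, mul_comm]
    congr 1
    symm
    rw [finsum_eq_sum_of_support_subset (s := (toA μ).coeff.support)]
    · refine Finset.sum_congr rfl fun y _ => ?_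
      rw [coeff_toA, mul_comm]
    · intro y hy
      rw [Finset.mem_coe, Finsupp.mem_support_iff, coeff_toA]
      intro h0
      apply hy
      show μ y * lam (ext Φ) y = 0
      rw [h0, zero_mul]

end Pool.Agent.Results.MP_847c7e_pr.BoltzmannRigidity
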